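import Pool.Agent.H64.LB.Targets

/-!
# Module L-INF: charts of the elliptic curve `EC`
-/

open Topology Set Filter
open Pool.Agent.H59
open scoped ContinuousMap

namespace Pool.Agent.H88.LB.INF

open Pool.Agent.H64.LB

/-- scaling of a nonzero vector -/
def sm {n : ℕ} (c : {c : ℂ // c ≠ 0}) (w : NZ n) : NZ n := ⟨c.1 • w.1, smul_ne_zero c.2 w.2⟩

theorem continuous_sm {n : ℕ} (c : {c : ℂ // c ≠ 0}) : Continuous (sm c : NZ n → NZ n) :=
  (continuous_subtype_val.const_smul c.1).subtype_mk _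

theorem isQuotientMap_pt {n : ℕ} : IsQuotientMap (pt : NZ n → PN n) := isQuotientMap_quot_mk

theorem pt_eq {n : ℕ} (v w : NZ n) : pt v = pt w ↔ ∃ c : ℂ, c ≠ 0 ∧ w.1 = c • v.1 :=
  ⟨fun h => Quotient.exact h, fun h => Quotient.sound h⟩

theorem isOpenMap_pt {n : ℕ} : IsOpenMap (pt : NZ n → PN n) := by
  intro U hU
  rw [← isQuotientMap_pt.isOpen_preimage]
  have h : (pt ⁻¹' (pt '' U) : Set (NZ n)) = ⋃ c : {c : ℂ // c ≠ 0}, sm c ⁻¹' U := by
    ext w
    simp only [mem_preimage, mem_image, mem_iUnion]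
    constructor
    · rintro ⟨v, hv, h⟩
      obtain ⟨c, hc, h2⟩ := (pt_eq w v).1 h.symm
      refine ⟨⟨c, hc⟩, ?_⟩
      have : sm ⟨c, hc⟩ w = v := Subtype.ext h2.symm
      rw [this]
      exact hv
    · rintro ⟨c, hc⟩
      refine ⟨_, hc, ?_⟩
      exact ((pt_eq w (sm c w)).2 ⟨c.1, c.2, rfl⟩).symm
  rw [h]
  exact isOpen_iUnion (fun c => hU.preimage (continuous_sm c))

theorem isOpenQuotientMap_pt {n : ℕ} : IsOpenQuotientMap (pt : NZ n → PN n) :=
  ⟨isQuotientMap_pt.surjective, isQuotientMap_pt.continuous, isOpenMap_pt⟩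

/-- the quotient of two homogeneous coordinates -/
noncomputable def ra (i j : Fin 3) : PN 2 → ℂ :=
  Quotient.lift (fun v : NZ 2 => v.1 i / v.1 j) (by
    rintro v w ⟨c, hc, h⟩
    rw [h]
    simp only [Pi.smul_apply, smul_eq_mul]
    rw [mul_div_mul_left _ _ hc])

theorem ra_pt (i j : Fin 3) (v : NZ 2) : ra i j (pt v) = v.1 i / v.1 j := rfl

/-- the coordinate `j` does not vanish -/
def nz (j : Fin 3) : PN 2 → Prop :=
  Quotient.lift (fun v : NZ 2 => v.1 j ≠ 0) (by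
    rintro v w ⟨c, hc, h⟩
    rw [h]
    simp only [Pi.smul_apply, smul_eq_mul, ne_eq, mul_eq_zero, hc, false_or])

theorem nz_pt (j : Fin 3) (v : NZ 2) : nz j (pt v) ↔ v.1 j ≠ 0 := Iff.rfl

theorem isOpen_nz (j : Fin 3) : IsOpen {x : PN 2 | nz j x} := by
  rw [← isQuotientMap_pt.isOpen_preimage]
  change IsOpen {v : NZ 2 | v.1 j ≠ 0}
  exact isOpen_ne_fun ((continuous_apply j).comp continuous_subtype_val) continuous_const

theorem continuousAt_ra (i j : Fin 3) {x : PN 2} (hx : nz j x) : ContinuousAt (ra i j) x := by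
  obtain ⟨v, rfl⟩ := isQuotientMap_pt.surjective x
  rw [← isOpenQuotientMap_pt.continuousAt_comp_iff]
  change ContinuousAt (fun v : NZ 2 => v.1 i / v.1 j) v
  exact ContinuousAt.div ((continuous_apply i).comp continuous_subtype_val).continuousAt
    ((continuous_apply j).comp continuous_subtype_val).continuousAt hx

/-! ### The affine chart -/

/-- the affine coordinates -/
noncomputable def G (x : EC) : ℂ × (Fin 1 → ℂ) := (ra 0 2 x.1, fun _ => ra 1 2 x.1)

theorem G_toEC (p : VV 1) : G (VV.toEC p) = p.1 := by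
  have h0 : ra 0 2 (VV.toEC p).1 = p.1.1 := by
    change ra 0 2 (pt _) = _
    rw [ra_pt]
    simp
  have h1 : ra 1 2 (VV.toEC p).1 = p.1.2 0 := by
    change ra 1 2 (pt _) = _
    rw [ra_pt]
    simp
  refine Prod.ext h0 ?_
  funext i
  have hi : i = 0 := Subsingleton.elim _ _
  subst hi
  exact h1

theorem nz_toEC (p : VV 1) : nz 2 (VV.toEC p).1 := by
  change nz 2 (pt _)
  rw [nz_pt]
  simp

theorem continuousAt_G {x : EC} (hx : nz 2 x.1) : ContinuousAt G x := by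
  refine ContinuousAt.prodMk ?_ ?_
  · exact (continuousAt_ra 0 2 hx).comp continuous_subtype_val.continuousAt
  · exact continuousAt_pi.2 (fun _ =>
      (continuousAt_ra 1 2 hx).comp continuous_subtype_val.continuousAt)

theorem range_toEC : range VV.toEC = {x : EC | nz 2 x.1} := by
  ext x
  constructor
  · rintro ⟨p, rfl⟩
    exact nz_toEC p
  · intro hx
    obtain ⟨x, hE⟩ := x
    obtain ⟨v, rfl⟩ := isQuotientMap_pt.surjective x
    have hv : v.1 2 ≠ 0 := hx
    have h := hE v rfl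
    refine ⟨⟨(v.1 0 / v.1 2, fun _ => v.1 1 / v.1 2), ?_⟩, ?_⟩
    · simp only [Finset.univ_unique, Fin.default_eq_zero, Finset.sum_singleton]
      field_simp
      linear_combination h
    · apply Subtype.ext
      change pt _ = pt v
      rw [pt_eq]
      refine ⟨v.1 2, hv, ?_⟩
      funext i
      fin_cases i
      · simp; field_simp
      · simp; field_simp
      · simp

theorem isOpenEmbedding_toEC : IsOpenEmbedding VV.toEC := by
  have hind : IsInducing VV.toEC := by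
    rw [isInducing_iff_nhds]
    intro p
    refine le_antisymm (tendsto_iff_comap.1 VV.toEC.continuous.continuousAt) ?_
    rw [nhds_induced Subtype.val p]
    have hG : Tendsto G (𝓝 (VV.toEC p)) (𝓝 p.1) := by
      have := continuousAt_G (nz_toEC p)
      unfold ContinuousAt at this
      rwa [G_toEC] at this
    have h1 : 𝓝 (VV.toEC p) ≤ comap G (𝓝 p.1) := tendsto_iff_comap.1 hG
    calc comap VV.toEC (𝓝 (VV.toEC p)) ≤ comap VV.toEC (comap G (𝓝 p.1)) := comap_mono h1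
      _ = comap (G ∘ VV.toEC) (𝓝 p.1) := comap_comap
      _ = comap Subtype.val (𝓝 p.1) := by
        congr 1
        funext q
        exact G_toEC q
  refine ⟨⟨hind, ?_⟩, ?_⟩
  · intro p q h
    apply Subtype.ext
    rw [← G_toEC p, ← G_toEC q, h]
  · rw [range_toEC]
    exact (isOpen_nz 2).preimage continuous_subtype_val

/-! ### The square root -/

/-- the principal square root -/
noncomputable def sq (z : ℂ) : ℂ := z ^ ((2 : ℕ) : ℂ)⁻¹

theorem sq_sq (z : ℂ) : sq z ^ 2 = z := Complex.cpow_nat_inv_pow z two_ne_zero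

theorem sq_of_sq {w : ℂ} (hw : 0 < w.re) : sq (w ^ 2) = w := by
  have h := Complex.abs_arg_lt_pi_div_two_iff.2 (Or.inl hw)
  have h2 := abs_lt.1 h
  exact Complex.pow_cpow_nat_inv two_ne_zero (by push_cast; linarith [h2.1])
    (by push_cast; linarith [h2.2])

theorem sq_re {z : ℂ} (hz : 0 < z.re) : 0 < (sq z).re := by
  have h0 : z ≠ 0 := by
    rintro rfl
    simp at hz
  have h := abs_lt.1 (Complex.abs_arg_lt_pi_div_two_iff.2 (Or.inl hz))
  unfold sq
  rw [Complex.cpow_def_of_ne_zero h0, Complex.exp_re]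
  have him : (Complex.log z * ((2 : ℕ) : ℂ)⁻¹).im = z.arg / 2 := by
    have : (((2 : ℕ) : ℂ)⁻¹) = (((1 / 2 : ℝ)) : ℂ) := by push_cast; norm_num
    rw [this, Complex.im_mul_ofReal, Complex.log_im]
    ring
  rw [him]
  refine mul_pos (Real.exp_pos _) (Real.cos_pos_of_mem_Ioo ⟨?_, ?_⟩)
  · have := Real.pi_pos
    linarith [h.1]
  · have := Real.pi_pos
    linarith [h.2]

theorem continuousAt_sq {z : ℂ} (hz : 0 < z.re) : ContinuousAt sq z :=
  continuousAt_cpow_const (Or.inl hz)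

theorem inv_re_pos {z : ℂ} (hz : 0 < z.re) : 0 < (z⁻¹).re := by
  rw [Complex.inv_re]
  have h0 : z ≠ 0 := by
    rintro rfl
    simp at hz
  exact div_pos hz (Complex.normSq_pos.2 h0)

theorem re_pos_of_norm {z : ℂ} (hz : ‖z‖ < 1) : 0 < (1 - z).re ∧ 0 < (1 + z).re := by
  have h := abs_lt.1 (lt_of_le_of_lt (Complex.abs_re_le_norm z) hz)
  simp only [Complex.sub_re, Complex.add_re, Complex.one_re]
  constructor <;> linarith [h.1, h.2]

/-! ### The chart at infinity -/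

/-- a point of `EC` from a solution of the homogeneous equation -/
def mkEC (w : NZ 2) (h : w.1 0 ^ 3 + w.1 1 ^ 2 * w.1 2 = w.1 2 ^ 3) : EC :=
  ⟨pt w, by
    intro v hv
    obtain ⟨c, hc, h2⟩ := (pt_eq w v).1 hv.symm
    rw [h2]
    simp only [Pi.smul_apply, smul_eq_mul]
    linear_combination c ^ 3 * h⟩

/-- the functions `u, v, s` -/
noncomputable def uu (x : EC) : ℂ := ra 0 1 x.1
noncomputable def vv (x : EC) : ℂ := ra 2 1 x.1
noncomputable def ss (x : EC) : ℂ := - uu x / sq (1 - vv x ^ 2)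

theorem continuousAt_uu {x : EC} (hx : nz 1 x.1) : ContinuousAt uu x :=
  (continuousAt_ra 0 1 hx).comp continuous_subtype_val.continuousAt

theorem continuousAt_vv {x : EC} (hx : nz 1 x.1) : ContinuousAt vv x :=
  (continuousAt_ra 2 1 hx).comp continuous_subtype_val.continuousAt

theorem uv_eq {x : EC} (hx : nz 1 x.1) : uu x ^ 3 + vv x = vv x ^ 3 := by
  obtain ⟨x, hE⟩ := x
  obtain ⟨v, rfl⟩ := isQuotientMap_pt.surjective x
  have hv : v.1 1 ≠ 0 := hx
  have h := hE v rfl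
  change (v.1 0 / v.1 1) ^ 3 + v.1 2 / v.1 1 = (v.1 2 / v.1 1) ^ 3
  field_simp
  linear_combination h

theorem norm_sq_lt {z : ℂ} (hz : ‖z‖ < 1) : ‖z ^ 2‖ < 1 := by
  rw [norm_pow]
  have := norm_nonneg z
  nlinarith

theorem continuousAt_ss {x : EC} (hx : nz 1 x.1) (hv : ‖vv x‖ < 1) : ContinuousAt ss x := by
  have h1 := (re_pos_of_norm (norm_sq_lt hv)).1
  have h2 : sq (1 - vv x ^ 2) ≠ 0 := by
    intro h
    have := sq_re h1
    rw [h] at this
    simp at this
  refine ContinuousAt.div (continuousAt_uu hx).neg ?_ h2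
  have h3 : ContinuousAt (fun x : EC => 1 - vv x ^ 2) x :=
    continuousAt_const.sub ((continuousAt_vv hx).pow 2)
  exact ContinuousAt.comp (g := sq) (f := fun x : EC => 1 - vv x ^ 2) (continuousAt_sq h1) h3

/-- the neighbourhood of infinity -/
def W : Set EC := {x | nz 1 x.1 ∧ ‖vv x‖ < 1 ∧ ‖ss x‖ < 1 / 2}

theorem isOpen_W : IsOpen W := by
  rw [isOpen_iff_mem_nhds]
  rintro x ⟨h1, h2, h3⟩
  have e1 : ∀ᶠ y : EC in 𝓝 x, nz 1 y.1 :=
    ((isOpen_nz 1).preimage continuous_subtype_val).mem_nhds h1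
  have e2 : ∀ᶠ y : EC in 𝓝 x, ‖vv y‖ < 1 :=
    (continuousAt_vv h1).norm.eventually_lt continuousAt_const h2
  have e3 : ∀ᶠ y : EC in 𝓝 x, ‖ss y‖ < 1 / 2 :=
    (continuousAt_ss h1 h2).norm.eventually_lt continuousAt_const h3
  filter_upwards [e1, e2, e3] with y a b c
  exact ⟨a, b, c⟩

/-- the disc -/
abbrev Di : Type := Metric.ball (0 : ℂ) (1 / 2)

theorem Di.norm (s : Di) : ‖s.1‖ < 1 / 2 := by
  have := s.2
  rwa [mem_ball_zero_iff] at this

theorem norm6 {s : ℂ} (hs : ‖s‖ < 1 / 2) : ‖s ^ 6‖ < 1 / 64 := by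
  rw [norm_pow]
  calc ‖s‖ ^ 6 < (1 / 2) ^ 6 := pow_lt_pow_left₀ hs (norm_nonneg _) (by norm_num)
    _ = 1 / 64 := by norm_num

theorem re6 {s : ℂ} (hs : ‖s‖ < 1 / 2) : 0 < (1 + s ^ 6).re :=
  (re_pos_of_norm (lt_trans (norm6 hs) (by norm_num))).2

theorem sq6_re {s : ℂ} (hs : ‖s‖ < 1 / 2) : 0 < (sq (1 + s ^ 6)).re := sq_re (re6 hs)

theorem sq6_ne {s : ℂ} (hs : ‖s‖ < 1 / 2) : sq (1 + s ^ 6) ≠ 0 := by
  intro h
  have := sq6_re hs
  rw [h] at this
  simp at this

/-- the inverse chart -/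
noncomputable def ph (s : Di) : EC :=
  mkEC ⟨![-s.1, sq (1 + s.1 ^ 6), s.1 ^ 3], by
    intro h
    have := congrFun h 1
    exact sq6_ne (Di.norm s) this⟩ (by
    have h := sq_sq (1 + s.1 ^ 6)
    change (-s.1) ^ 3 + sq (1 + s.1 ^ 6) ^ 2 * s.1 ^ 3 = (s.1 ^ 3) ^ 3
    rw [h]
    ring)

theorem continuous_ph : Continuous ph := by
  refine Continuous.subtype_mk ?_ _
  refine continuous_pt.comp (Continuous.subtype_mk ?_ _)
  refine continuous_pi (fun i => ?_)
  fin_cases i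
  · exact continuous_subtype_val.neg
  · rw [continuous_iff_continuousAt]
    intro s
    have h3 : ContinuousAt (fun s : Di => 1 + s.1 ^ 6) s :=
      (continuous_const.add (continuous_subtype_val.pow 6)).continuousAt
    exact ContinuousAt.comp (g := sq) (f := fun s : Di => 1 + s.1 ^ 6)
      (continuousAt_sq (re6 (Di.norm s))) h3
  · exact continuous_subtype_val.pow 3

theorem nz_ph (s : Di) : nz 1 (ph s).1 := sq6_ne (Di.norm s)

theorem uu_ph (s : Di) : uu (ph s) = -s.1 / sq (1 + s.1 ^ 6) := rfl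

theorem vv_ph (s : Di) : vv (ph s) = s.1 ^ 3 / sq (1 + s.1 ^ 6) := rfl

theorem norm_vv_ph (s : Di) : ‖vv (ph s)‖ < 1 := by
  have hs := Di.norm s
  rw [vv_ph, norm_div]
  have h0 : 0 < ‖sq (1 + s.1 ^ 6)‖ := norm_pos_iff.2 (sq6_ne hs)
  rw [div_lt_one h0]
  have h1 : ‖sq (1 + s.1 ^ 6)‖ ^ 2 = ‖1 + s.1 ^ 6‖ := by rw [← norm_pow, sq_sq]
  have h2 := norm6 hs
  have h3 : 1 - ‖s.1 ^ 6‖ ≤ ‖1 + s.1 ^ 6‖ := by
    have := norm_sub_norm_le (1 : ℂ) (-(s.1 ^ 6))
    rw [norm_one, norm_neg, sub_neg_eq_add] at this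
    exact this
  have h4 : ‖s.1 ^ 3‖ ^ 2 = ‖s.1 ^ 6‖ := by rw [← norm_pow, ← pow_mul]
  by_contra hcon
  push Not at hcon
  have : ‖sq (1 + s.1 ^ 6)‖ ^ 2 ≤ ‖s.1 ^ 3‖ ^ 2 := pow_le_pow_left₀ h0.le hcon 2
  rw [h1, h4] at this
  linarith

theorem ss_ph (s : Di) : ss (ph s) = s.1 := by
  have hs := Di.norm s
  have hr := sq6_ne hs
  have h1 : 1 - vv (ph s) ^ 2 = ((sq (1 + s.1 ^ 6))⁻¹) ^ 2 := by
    have h := sq_sq (1 + s.1 ^ 6)
    rw [vv_ph]
    field_simp
    linear_combination h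
  unfold ss
  rw [h1, sq_of_sq (inv_re_pos (sq6_re hs)), uu_ph]
  field_simp

theorem ph_mem (s : Di) : ph s ∈ W := by
  refine ⟨nz_ph s, norm_vv_ph s, ?_⟩
  rw [ss_ph]
  exact Di.norm s

theorem ph_ss {x : EC} (hx : x ∈ W) :
    ph ⟨ss x, by rw [mem_ball_zero_iff]; exact hx.2.2⟩ = x := by
  obtain ⟨h1, h2, h3⟩ := hx
  have huv := uv_eq h1
  have hre := (re_pos_of_norm (norm_sq_lt h2)).1
  have hq := sq_sq (1 - vv x ^ 2)
  have hqre := sq_re hre
  set q := sq (1 - vv x ^ 2) with hqdef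
  have hq0 : q ≠ 0 := by
    intro h
    rw [h] at hqre
    simp at hqre
  have hs3 : ss x ^ 3 = vv x / q := by
    unfold ss
    rw [← hqdef]
    field_simp
    linear_combination (-1 : ℂ) * huv - vv x * hq
  have hs6 : 1 + ss x ^ 6 = (q⁻¹) ^ 2 := by
    have : ss x ^ 6 = (ss x ^ 3) ^ 2 := by ring
    rw [this, hs3]
    field_simp
    linear_combination hq
  have hr : sq (1 + ss x ^ 6) = q⁻¹ := by
    rw [hs6]
    exact sq_of_sq (inv_re_pos hqre)
  apply Subtype.ext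
  obtain ⟨x, hE⟩ := x
  obtain ⟨v, rfl⟩ := isQuotientMap_pt.surjective x
  have hv : v.1 1 ≠ 0 := h1
  change pt _ = pt v
  rw [pt_eq]
  refine ⟨v.1 1 * q, mul_ne_zero hv hq0, ?_⟩
  have hu' : ss ⟨pt v, hE⟩ = -(v.1 0 / v.1 1) / q := rfl
  have hv' : vv ⟨pt v, hE⟩ = v.1 2 / v.1 1 := rfl
  funext i
  fin_cases i
  · simp only [Fin.zero_eta, Fin.isValue, Pi.smul_apply, smul_eq_mul, Matrix.cons_val_zero]
    rw [hu']
    field_simp
  · simp only [Fin.mk_one, Fin.isValue, Pi.smul_apply, smul_eq_mul, Matrix.cons_val_one,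
      Matrix.cons_val_zero]
    rw [hr]
    field_simp
  · simp only [Fin.reduceFinMk, Fin.isValue, Pi.smul_apply, smul_eq_mul, Matrix.cons_val]
    rw [hs3, hv']
    field_simp

/-- `W` is homeomorphic to the disc -/
noncomputable def eW : Di ≃ₜ W where
  toFun s := ⟨ph s, ph_mem s⟩
  invFun x := ⟨ss x.1, by rw [mem_ball_zero_iff]; exact x.2.2.2⟩
  left_inv s := Subtype.ext (ss_ph s)
  right_inv x := Subtype.ext (ph_ss x.2)
  continuous_toFun := continuous_ph.subtype_mk _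
  continuous_invFun := by
    refine Continuous.subtype_mk ?_ _
    rw [continuous_iff_continuousAt]
    intro x
    exact ContinuousAt.comp (g := ss) (f := fun x : W => x.1) (continuousAt_ss x.2.1 x.2.2.1)
      continuous_subtype_val.continuousAt

theorem contractible_W : ContractibleSpace W := by
  have h : ContractibleSpace Di :=
    (convex_ball (0 : ℂ) (1 / 2)).contractibleSpace ⟨0, by simp⟩
  exact eW.symm.contractibleSpace

theorem union_W : range VV.toEC ∪ W = univ := by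
  rw [range_toEC]
  ext x
  simp only [mem_union, mem_univ, iff_true]
  by_cases h2 : nz 2 x.1
  · exact Or.inl h2
  right
  obtain ⟨x, hE⟩ := x
  obtain ⟨v, rfl⟩ := isQuotientMap_pt.surjective x
  have hv2 : v.1 2 = 0 := not_not.1 h2
  have h := hE v rfl
  rw [hv2] at h
  have hv0 : v.1 0 = 0 := by
    have h3 : v.1 0 ^ 3 = 0 := by linear_combination h
    exact pow_eq_zero_iff (by norm_num) |>.1 h3
  have hv1 : v.1 1 ≠ 0 := by
    intro h1
    apply v.2
    funext i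
    fin_cases i
    · exact hv0
    · exact h1
    · exact hv2
  have hvv : vv ⟨pt v, hE⟩ = 0 := by
    change v.1 2 / v.1 1 = 0
    rw [hv2, zero_div]
  have huu : uu ⟨pt v, hE⟩ = 0 := by
    change v.1 0 / v.1 1 = 0
    rw [hv0, zero_div]
  refine ⟨hv1, ?_, ?_⟩
  · rw [hvv, norm_zero]
    norm_num
  · unfold ss
    rw [huu, neg_zero, zero_div, norm_zero]
    norm_num

theorem nz2_ph (s : Di) : nz 2 (ph s).1 ↔ s.1 ≠ 0 := by
  change s.1 ^ 3 ≠ 0 ↔ _
  simp

/-! ### The punctured neighbourhood -/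

/-- the punctured disc -/
abbrev PD : Type := {s : Di // s.1 ≠ 0}

theorem ph_mem' (s : PD) : ph s.1 ∈ range VV.toEC ∩ W := by
  refine ⟨?_, ph_mem s.1⟩
  rw [range_toEC]
  exact (nz2_ph s.1).2 s.2

/-- the punctured disc is the intersection of the charts -/
noncomputable def ePD : PD ≃ₜ ↥(range VV.toEC ∩ W) where
  toFun s := ⟨ph s.1, ph_mem' s⟩
  invFun x := ⟨eW.symm ⟨x.1, x.2.2⟩, by
    have h : x.1 ∈ {x : EC | nz 2 x.1} := by
      rw [← range_toEC]
      exact x.2.1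
    have h2 : ph (eW.symm ⟨x.1, x.2.2⟩) = x.1 := congrArg Subtype.val (eW.apply_symm_apply _)
    change nz 2 x.1.1 at h
    rw [← h2] at h
    exact (nz2_ph _).1 h⟩
  left_inv s := by
    apply Subtype.ext
    exact eW.symm_apply_apply s.1
  right_inv x := by
    apply Subtype.ext
    have h : ph (eW.symm ⟨x.1, x.2.2⟩) = x.1 := congrArg Subtype.val (eW.apply_symm_apply _)
    exact h
  continuous_toFun := Continuous.subtype_mk (continuous_ph.comp continuous_subtype_val) _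
  continuous_invFun := by
    refine Continuous.subtype_mk ?_ _
    exact eW.symm.continuous.comp (continuous_subtype_val.subtype_mk _)

/-- the complex number of a vector of `ℝ^2` -/
noncomputable def cw (x : Fin 2 → ℝ) : ℂ := (x 0 : ℂ) + (x 1 : ℂ) * Complex.I

theorem cw_ne {x : Fin 2 → ℝ} (hx : x ≠ 0) : cw x ≠ 0 := by
  intro h
  apply hx
  have h0 := congrArg Complex.re h
  have h1 := congrArg Complex.im h
  simp [cw] at h0 h1
  funext i
  fin_cases i
  · exact h0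
  · exact h1

theorem norm_shrink (w : ℂ) : ‖w / ((2 * (1 + ‖w‖) : ℝ) : ℂ)‖ = ‖w‖ / (2 * (1 + ‖w‖)) := by
  rw [norm_div, Complex.norm_real, Real.norm_of_nonneg (by positivity)]

theorem div_div_inv (z : ℂ) {d : ℝ} (hd : d ≠ 0) : (z / (d : ℂ)) / ((1 / d : ℝ) : ℂ) = z := by
  have h : (d : ℂ) ≠ 0 := by exact_mod_cast hd
  push_cast
  field_simp

/-- the punctured plane and the punctured disc -/
noncomputable def eSP : Sph 1 ≃ₜ PD where
  toFun x := ⟨⟨cw x.1 / ((2 * (1 + ‖cw x.1‖) : ℝ) : ℂ), by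
    rw [mem_ball_zero_iff, norm_shrink, div_lt_iff₀ (by positivity)]
    have := norm_nonneg (cw x.1)
    linarith⟩, by
    refine div_ne_zero (cw_ne x.2) ?_
    have : (0 : ℝ) < 2 * (1 + ‖cw x.1‖) := by positivity
    exact_mod_cast this.ne'⟩
  invFun s := ⟨![(s.1.1 / ((1 / 2 - ‖s.1.1‖ : ℝ) : ℂ)).re,
      (s.1.1 / ((1 / 2 - ‖s.1.1‖ : ℝ) : ℂ)).im], by
    intro h
    have h0 : (s.1.1 / ((1 / 2 - ‖s.1.1‖ : ℝ) : ℂ)).re = 0 := congrFun h 0
    have h1 : (s.1.1 / ((1 / 2 - ‖s.1.1‖ : ℝ) : ℂ)).im = 0 := congrFun h 1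
    have h2 : s.1.1 / ((1 / 2 - ‖s.1.1‖ : ℝ) : ℂ) = 0 := Complex.ext h0 h1
    have h3 := Di.norm s.1
    have h4 : (0 : ℝ) < 1 / 2 - ‖s.1.1‖ := by linarith
    rcases div_eq_zero_iff.1 h2 with h5 | h5
    · exact s.2 h5
    · exact h4.ne' (by exact_mod_cast h5)⟩
  left_inv x := by
    have hw := norm_nonneg (cw x.1)
    have hd : (0 : ℝ) < 2 * (1 + ‖cw x.1‖) := by positivity
    have key : (cw x.1 / ((2 * (1 + ‖cw x.1‖) : ℝ) : ℂ)) /
        ((1 / 2 - ‖cw x.1 / ((2 * (1 + ‖cw x.1‖) : ℝ) : ℂ)‖ : ℝ) : ℂ) = cw x.1 := by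
      rw [norm_shrink]
      have h1 : (1 / 2 - ‖cw x.1‖ / (2 * (1 + ‖cw x.1‖)) : ℝ) = 1 / (2 * (1 + ‖cw x.1‖)) := by
        field_simp
        ring
      rw [h1]
      exact div_div_inv _ hd.ne'
    apply Subtype.ext
    funext i
    fin_cases i
    · change (_ / _ : ℂ).re = x.1 0
      rw [key]
      simp [cw]
    · change (_ / _ : ℂ).im = x.1 1
      rw [key]
      simp [cw]
  right_inv s := by
    have hs := Di.norm s.1
    have h4 : (0 : ℝ) < 1 / 2 - ‖s.1.1‖ := by linarith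
    apply Subtype.ext
    apply Subtype.ext
    have hcw : cw ![(s.1.1 / ((1 / 2 - ‖s.1.1‖ : ℝ) : ℂ)).re,
      (s.1.1 / ((1 / 2 - ‖s.1.1‖ : ℝ) : ℂ)).im] = s.1.1 / ((1 / 2 - ‖s.1.1‖ : ℝ) : ℂ) := by
      unfold cw
      exact Complex.re_add_im _
    change cw ![(s.1.1 / ((1 / 2 - ‖s.1.1‖ : ℝ) : ℂ)).re,
      (s.1.1 / ((1 / 2 - ‖s.1.1‖ : ℝ) : ℂ)).im] / ((2 * (1 + ‖cw ![(s.1.1 / ((1 / 2 - ‖s.1.1‖ : ℝ) : ℂ)).re,
      (s.1.1 / ((1 / 2 - ‖s.1.1‖ : ℝ) : ℂ)).im]‖) : ℝ) : ℂ) = s.1.1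
    rw [hcw]
    have hn : ‖s.1.1 / ((1 / 2 - ‖s.1.1‖ : ℝ) : ℂ)‖ = ‖s.1.1‖ / (1 / 2 - ‖s.1.1‖) := by
      rw [norm_div, Complex.norm_real, Real.norm_of_nonneg h4.le]
    rw [hn]
    have h5 : (2 * (1 + ‖s.1.1‖ / (1 / 2 - ‖s.1.1‖)) : ℝ) = 1 / (1 / 2 - ‖s.1.1‖) := by
      generalize ‖s.1.1‖ = t at h4
      rw [eq_div_iff h4.ne']
      have : 2 * (1 + t / (1 / 2 - t)) * (1 / 2 - t) = 2 * ((1 / 2 - t) + t / (1 / 2 - t) * (1 / 2 - t)) := by
        ring
      rw [this, div_mul_cancel₀ _ h4.ne']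
      ring
    rw [h5]
    exact div_div_inv _ h4.ne'
  continuous_toFun := by
    have hc : Continuous (fun x : Sph 1 => cw x.1) := by
      unfold cw
      exact (Complex.continuous_ofReal.comp ((continuous_apply 0).comp
        continuous_subtype_val)).add ((Complex.continuous_ofReal.comp ((continuous_apply 1).comp
        continuous_subtype_val)).mul continuous_const)
    refine Continuous.subtype_mk (Continuous.subtype_mk ?_ _) _
    refine hc.div (Complex.continuous_ofReal.comp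
      (continuous_const.mul (continuous_const.add hc.norm))) (fun x => ?_)
    have : (0 : ℝ) < 2 * (1 + ‖cw x.1‖) := by positivity
    exact_mod_cast this.ne'
  continuous_invFun := by
    have hc : Continuous (fun s : PD => s.1.1) :=
      continuous_subtype_val.comp continuous_subtype_val
    have hd : Continuous (fun s : PD => s.1.1 / ((1 / 2 - ‖s.1.1‖ : ℝ) : ℂ)) := by
      refine hc.div (Complex.continuous_ofReal.comp (continuous_const.sub hc.norm)) (fun s => ?_)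
      have h3 := Di.norm s.1
      have h4 : (0 : ℝ) < 1 / 2 - ‖s.1.1‖ := by linarith
      exact_mod_cast h4.ne'
    refine Continuous.subtype_mk (continuous_pi (fun i => ?_)) _
    fin_cases i
    · exact Complex.continuous_re.comp hd
    · exact Complex.continuous_im.comp hd

/-- Module L-INF. -/
theorem inf : T_INF :=
  ⟨isOpenEmbedding_toEC, W, isOpen_W, union_W, contractible_W,
    ⟨(eSP.trans ePD).toHomotopyEquiv⟩⟩

end Pool.Agent.H88.LB.INF
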